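import Mathlib
import Pool.Agent.R762.Iso4

/-! MP_08e0ef_gt (Q1, Q2): a compact convex set in the plane with two circular isoptics is a disc.

`Iso.sight S P` is the supremum of the angles between the vectors from `P` to two points of `S`
(the angle of sight), and `Iso.isoptic S α` is the set of the points outside `S` from which `S` is
seen under the angle `α`. -/

set_option autoImplicit false

namespace Pool.Agent.Results.MP_08e0ef_gt.TwoCircularIsoptics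

open Set Real
open Pool.Agent.R762

/-- `C` is a circle (of positive radius). -/
def IsCircle (C : Set ℂ) : Prop := ∃ (O : ℂ) (R : ℝ), 0 < R ∧ C = Metric.sphere O R

lemma sphere_ne {O : ℂ} {R : ℝ} (hR : 0 < R) : (Metric.sphere O R).Nonempty :=
  NormedSpace.sphere_nonempty.2 hR.le

lemma full {S : Set ℂ} (hcpt : IsCompact S) (hconv : Convex ℝ S) {α₁ α₂ : ℝ}
    (h1 : α₁ ∈ Ioo 0 π) (h2 : α₂ ∈ Ioo 0 π) (hne : α₁ ≠ α₂) (hex : (Iso.isoptic S α₁).Nonempty)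
    {O₁ O₂ : ℂ} {R₁ R₂ : ℝ} (hC₁ : Iso.isoptic S α₁ ⊆ Metric.sphere O₁ R₁)
    (hC₂ : Iso.isoptic S α₂ ⊆ Metric.sphere O₂ R₂) :
    O₁ = O₂ ∧ ∃ r : ℝ, 0 < r ∧ S = Metric.closedBall O₁ r ∧
      ∀ α ∈ Ioo 0 π, Iso.isoptic S α = Metric.sphere O₁ (r / sin (α / 2)) := by
  obtain ⟨hO, r, hr, hS⟩ := Iso.main hcpt hconv h1 h2 hne hex hC₁ hC₂
  exact ⟨hO, r, hr, hS, fun α hα => by rw [hS]; exact Iso.isoptic_ball hr hα⟩

lemma rad_pos {r α : ℝ} (hr : 0 < r) (hα : α ∈ Ioo 0 π) : 0 < r / sin (α / 2) :=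
  div_pos hr (sin_pos_of_pos_of_lt_pi (by linarith [hα.1]) (by linarith [hα.2, Real.pi_pos]))

lemma alt {S : Set ℂ} (hcpt : IsCompact S) (hconv : Convex ℝ S) (T : Set ℂ → Set ℂ)
    (hT : ∀ C, C ⊆ T C) (hT0 : T ∅ = ∅) (hTs : ∀ O R, T (Metric.sphere O R) = Metric.sphere O R) :
    {α | α ∈ Ioo 0 π ∧ IsCircle (T (Iso.isoptic S α))}.Subsingleton ∨
      {α | α ∈ Ioo 0 π ∧ IsCircle (T (Iso.isoptic S α))} = Ioo 0 π := by
  by_cases hsub : {α | α ∈ Ioo 0 π ∧ IsCircle (T (Iso.isoptic S α))}.Subsingleton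
  · left; exact hsub
  right
  rw [Set.not_subsingleton_iff] at hsub
  obtain ⟨α₁, ⟨h1, O₁, R₁, hR₁, e1⟩, α₂, ⟨h2, O₂, R₂, hR₂, e2⟩, hne⟩ := hsub
  have hex : (Iso.isoptic S α₁).Nonempty := by
    rw [nonempty_iff_ne_empty]
    intro h0
    rw [h0, hT0] at e1
    exact (sphere_ne hR₁).ne_empty e1.symm
  obtain ⟨-, r, hr, -, hall⟩ := full hcpt hconv h1 h2 hne hex (e1 ▸ hT _) (e2 ▸ hT _)
  ext α
  constructor
  · exact fun h => h.1
  · intro hα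
    exact ⟨hα, O₁, _, rad_pos hr hα, by rw [hall α hα, hTs]⟩

/-- **Two circular isoptics force a disc.** -/
theorem result :
    (∀ S : Set ℂ, IsCompact S → Convex ℝ S → ∀ α₁ ∈ Ioo 0 π, ∀ α₂ ∈ Ioo 0 π, α₁ ≠ α₂ →
      (Iso.isoptic S α₁).Nonempty → ∀ (O₁ O₂ : ℂ) (R₁ R₂ : ℝ),
      Iso.isoptic S α₁ ⊆ Metric.sphere O₁ R₁ → Iso.isoptic S α₂ ⊆ Metric.sphere O₂ R₂ →
      O₁ = O₂ ∧ ∃ r : ℝ, 0 < r ∧ S = Metric.closedBall O₁ r ∧
        ∀ α ∈ Ioo 0 π, Iso.isoptic S α = Metric.sphere O₁ (r / sin (α / 2))) ∧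
    (∀ S : Set ℂ, IsCompact S → Convex ℝ S →
      {α | α ∈ Ioo 0 π ∧ IsCircle (Iso.isoptic S α)}.Subsingleton ∨
      {α | α ∈ Ioo 0 π ∧ IsCircle (Iso.isoptic S α)} = Ioo 0 π) ∧
    (∀ S : Set ℂ, IsCompact S → Convex ℝ S →
      {α | α ∈ Ioo 0 π ∧ IsCircle (closure (Iso.isoptic S α))}.Subsingleton ∨
      {α | α ∈ Ioo 0 π ∧ IsCircle (closure (Iso.isoptic S α))} = Ioo 0 π) ∧
    (¬ ∃ S : Set ℂ, IsCompact S ∧ Convex ℝ S ∧
      {α | α ∈ Ioo 0 π ∧ IsCircle (Iso.isoptic S α)}.ncard = 2) ∧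
    (¬ ∃ S : Set ℂ, IsCompact S ∧ Convex ℝ S ∧
      {α | α ∈ Ioo 0 π ∧ IsCircle (closure (Iso.isoptic S α))}.ncard = 2) := by
  have A : ∀ S : Set ℂ, IsCompact S → Convex ℝ S →
      {α | α ∈ Ioo 0 π ∧ IsCircle (Iso.isoptic S α)}.Subsingleton ∨
      {α | α ∈ Ioo 0 π ∧ IsCircle (Iso.isoptic S α)} = Ioo 0 π := fun S hc hv =>
    alt hc hv (fun C => C) (fun C => Subset.rfl) rfl (fun _ _ => rfl)
  have B : ∀ S : Set ℂ, IsCompact S → Convex ℝ S →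
      {α | α ∈ Ioo 0 π ∧ IsCircle (closure (Iso.isoptic S α))}.Subsingleton ∨
      {α | α ∈ Ioo 0 π ∧ IsCircle (closure (Iso.isoptic S α))} = Ioo 0 π := fun S hc hv =>
    alt hc hv closure (fun C => subset_closure) closure_empty
      (fun O R => Metric.isClosed_sphere.closure_eq)
  have no : ∀ s : Set ℝ, (s.Subsingleton ∨ s = Ioo 0 π) → s.ncard ≠ 2 := by
    rintro s (h | h) h2
    · rcases h.eq_empty_or_singleton with h0 | ⟨x, h0⟩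
      · rw [h0, Set.ncard_empty] at h2; omega
      · rw [h0, Set.ncard_singleton] at h2; omega
    · rw [h, (Set.Ioo_infinite Real.pi_pos).ncard] at h2
      omega
  exact ⟨fun S hc hv α₁ h1 α₂ h2 hne hex O₁ O₂ R₁ R₂ c1 c2 => full hc hv h1 h2 hne hex c1 c2,
    A, B, fun ⟨S, hc, hv, h⟩ => no _ (A S hc hv) h, fun ⟨S, hc, hv, h⟩ => no _ (B S hc hv) h⟩

end Pool.Agent.Results.MP_08e0ef_gt.TwoCircularIsoptics
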